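import Mathlib
import Pool.Agent.SD.Final
import Pool.Agent.SD.GeoAll
import Pool.Agent.SD.GdAll

/-!
# Superexponential Dehn functions in 3-dimensional CAT(0) groups

There are a CAT(0) group `G` of geometric dimension 3 and a finitely presented subgroup `H` of `G`
with superexponential Dehn function.  All definitions used in the statement are given here; they
only use Mathlib.
-/

set_option autoImplicit false

namespace Pool.Agent.Results.MP_32d448_al.SuperexpDehn3D

open Topology

/-! ## CAT(0) groups -/

/-- `Z` is a CAT(0) space: any two points are joined by a geodesic, and every geodesic triangle is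
not fatter than its comparison triangle in the Euclidean plane.  Here `a` is a point of a geodesic
from `p` to `q` and `b` is a point of a geodesic from `p` to `r`; `p'`, `q'`, `r'` is the comparison
triangle and `a'`, `b'` are the comparison points. -/
def IsCAT0 (Z : Type) [MetricSpace Z] : Prop :=
  (∀ x y : Z, ∃ γ : ℝ → Z, γ 0 = x ∧ γ (dist x y) = y ∧
    ∀ s ∈ Set.Icc (0 : ℝ) (dist x y), ∀ t ∈ Set.Icc (0 : ℝ) (dist x y),
      dist (γ s) (γ t) = |s - t|) ∧
  (∀ p q r a b : Z, dist p a + dist a q = dist p q → dist p b + dist b r = dist p r →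
    ∀ p' q' r' a' b' : EuclideanSpace ℝ (Fin 2),
      dist p' q' = dist p q → dist q' r' = dist q r → dist p' r' = dist p r →
      dist p' a' = dist p a → dist a' q' = dist a q →
      dist p' b' = dist p b → dist b' r' = dist b r → dist a b ≤ dist a' b')

/-- The action of `G` on `Z` is by isometries, properly discontinuous and cocompact. -/
def GeometricAction (G Z : Type) [Group G] [MetricSpace Z] [MulAction G Z] : Prop :=
  (∀ (g : G) (x y : Z), dist (g • x) (g • y) = dist x y) ∧
  (∀ x : Z, ∃ r > 0, {g : G | ∃ y ∈ Metric.ball x r, g • y ∈ Metric.ball x r}.Finite) ∧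
  (∃ K : Set Z, IsCompact K ∧ ∀ z : Z, ∃ g : G, g • z ∈ K)

/-- `G` is a CAT(0) group: it acts properly discontinuously and cocompactly by isometries on a
(nonempty) CAT(0) space. -/
def IsCAT0Group (G : Type) [Group G] : Prop :=
  ∃ (Z : Type) (_ : MetricSpace Z) (_ : MulAction G Z),
    Nonempty Z ∧ IsCAT0 Z ∧ GeometricAction G Z

/-! ## Geometric dimension -/

/-- `G` has geometric dimension at most `n`: there is a contractible CW complex `E` (Hausdorff, in
the sense of Mathlib) without cells of dimension greater than `n`, on which `G` acts by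
homeomorphisms permuting the open cells, such that no cell is stabilised by a nontrivial element of
`G`.  (The quotients of these complexes by `G` are the CW complexes which are a `K(G,1)` and have
dimension at most `n`, and the complexes `E` are their universal covers.) -/
def GeomDimLE (G : Type) [Group G] (n : ℕ) : Prop :=
  ∃ (E : Type) (_ : TopologicalSpace E) (_ : T2Space E) (_ : MulAction G E)
    (_ : CWComplex (Set.univ : Set E)),
    ContractibleSpace E ∧ (∀ g : G, Continuous fun x : E => g • x) ∧
    (∀ m > n, IsEmpty (RelCWComplex.cell (Set.univ : Set E) m)) ∧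
    (∀ (g : G) (m : ℕ) (i : RelCWComplex.cell (Set.univ : Set E) m),
      ∃ j : RelCWComplex.cell (Set.univ : Set E) m,
        (fun x : E => g • x) '' RelCWComplex.openCell m i = RelCWComplex.openCell m j) ∧
    (∀ (g : G) (m : ℕ) (i : RelCWComplex.cell (Set.univ : Set E) m),
      (fun x : E => g • x) '' RelCWComplex.openCell m i = RelCWComplex.openCell m i → g = 1)

/-- The geometric dimension of `G` is `n`. -/
def GeomDimEq (G : Type) [Group G] (n : ℕ) : Prop := GeomDimLE G n ∧ ∀ m < n, ¬ GeomDimLE G m

/-! ## Dehn functions -/

/-- `w` is a product of at most `n` conjugates of elements of `R` and of their inverses. -/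
def ProdConj {α : Type} (R : Set (FreeGroup α)) (n : ℕ) (w : FreeGroup α) : Prop :=
  ∃ L : List (FreeGroup α × FreeGroup α), L.length ≤ n ∧
    (∀ p ∈ L, p.2 ∈ R ∨ p.2⁻¹ ∈ R) ∧ (L.map fun p => p.1 * p.2 * p.1⁻¹).prod = w

/-- The area of a word `w` which is trivial in the group presented by `R`: the least number of
conjugates of relators and of their inverses whose product is `w`. -/
noncomputable def area {α : Type} (R : Set (FreeGroup α)) (w : FreeGroup α) : ℕ :=
  sInf {n | ProdConj R n w}

/-- The Dehn function of the presentation with generators `Fin n` and relators `R`: the largest area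
of a word of length at most `k` which is trivial in the group. -/
noncomputable def dehn {n : ℕ} (R : Set (FreeGroup (Fin n))) (k : ℕ) : ℕ :=
  sSup {m | ∃ w ∈ Subgroup.normalClosure R, w.toWord.length ≤ k ∧ area R w = m}

/-- `δ` is superexponential: it is not `≼ exp`. -/
def Superexponential (δ : ℕ → ℕ) : Prop :=
  ¬ ∃ C : ℝ, 0 < C ∧ ∀ x : ℕ, (δ x : ℝ) ≤ C * Real.exp (C * x + C) + C * x + C

end Pool.Agent.Results.MP_32d448_al.SuperexpDehn3D

open Pool.Agent.Results.MP_32d448_al.SuperexpDehn3D in
/-- There are a CAT(0) group `G` of geometric dimension 3 and a finitely presented subgroup `H` of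
`G` such that, for every finite presentation of `H` (finitely many generators given by
`φ : FreeGroup (Fin n) →* H`, finite set `R` of relators), the Dehn function is superexponential,
and even at least `exp (exp (c x^(1/3)))` for large `x`. -/
theorem Pool.Agent.Results.MP_32d448_al.SuperexpDehn3D.result :
    ∃ (G : Type) (_ : Group G) (H : Subgroup G),
      IsCAT0Group G ∧ GeomDimEq G 3 ∧ Group.IsFinitelyPresented H ∧
      ∀ (n : ℕ) (R : Set (FreeGroup (Fin n))) (φ : FreeGroup (Fin n) →* H),
        R.Finite → Function.Surjective φ → φ.ker = Subgroup.normalClosure R →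
        Superexponential (dehn R) ∧
        ∃ c : ℝ, 0 < c ∧ ∃ x₀ : ℕ, ∀ x : ℕ, x₀ ≤ x →
          Real.exp (Real.exp (c * (x : ℝ) ^ ((1 : ℝ) / 3))) ≤ (dehn R x : ℝ) :=
  ⟨Pool.Agent.SD.P0.gad.Grp × FreeGroup Pool.Agent.SD.Lab, inferInstance,
    Pool.Agent.SD.P0.Theta.range, Pool.Agent.SD.geo_all, Pool.Agent.SD.gd_all,
    Pool.Agent.SD.FinalX.fp_range,
    fun n R φ hR hφ hk => Pool.Agent.SD.FinalX.dehn_range n R φ hR hφ hk⟩
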